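import Pool.Agent.Helper59.LUC.Goals

set_option autoImplicit false

namespace Pool.Agent.Helper59.LUC

namespace PkWC

lemma roots (P Q : ℤ) : ∃ x y : ℂ, x + y = P ∧ x * y = Q := by
  obtain ⟨s, hs⟩ := IsAlgClosed.exists_pow_nat_eq ((P : ℂ) ^ 2 - 4 * Q) (n := 2) (by norm_num)
  refine ⟨(P + s) / 2, (P - s) / 2, by ring, ?_⟩
  have : ((P : ℂ) + s) / 2 * ((P - s) / 2) = ((P : ℂ) ^ 2 - s ^ 2) / 4 := by ring
  rw [this, hs]; ring

lemma V_roots (P Q : ℤ) (x y : ℂ) (h1 : x + y = P) (h2 : x * y = Q) (n : ℕ) :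
    (V P Q n : ℂ) = x ^ n + y ^ n := by
  induction n using Nat.twoStepInduction with
  | zero => simp [V]; norm_num
  | one => simp [V, h1]
  | more n ih1 ih2 =>
    have e : V P Q (n + 2) = P * V P Q (n + 1) - Q * V P Q n := rfl
    rw [e]
    push_cast
    rw [ih1, ih2, ← h1, ← h2]
    ring

lemma V_comp (P Q : ℤ) (a b : ℕ) : V P Q (a * b) = V (V P Q a) (Q ^ a) b := by
  obtain ⟨x, y, h1, h2⟩ := roots P Q
  have h3 := V_roots P Q x y h1 h2
  have h4 := V_roots (V P Q a) (Q ^ a) (x ^ a) (y ^ a) (by rw [h3]) (by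
    rw [← mul_pow, h2]; push_cast; ring) b
  have h5 := h3 (a * b)
  have : (V P Q (a * b) : ℂ) = (V (V P Q a) (Q ^ a) b : ℂ) := by
    rw [h5, h4, pow_mul, pow_mul]
  exact_mod_cast this

theorem thm : G_WC := by
  intro T M a b
  unfold W
  rw [V_comp, pow_mul]
  congr 2
  rw [← pow_mul, ← pow_mul, mul_comm]

end PkWC

end Pool.Agent.Helper59.LUC
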