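import Pool.Agent.Helper59.LUC.Goals2
import Pool.Agent.Helper35.LUC.RK5

set_option autoImplicit false

open Polynomial

namespace Pool.Agent.Helper59.LUC

namespace PkRK2B

open PkRK5

variable {T M : ℤ} {η ξ : ℂ}

/-- the complex square root of `M` -/
noncomputable def sM (M : ℤ) : ℂ := ((Real.sqrt M : ℝ) : ℂ)

lemma sM_sq (h : Ctx T M η) : sM M ^ 2 = (M : ℂ) := by
  unfold sM
  rw [← Complex.ofReal_pow, Real.sq_sqrt h.MR.le]
  simp

lemma int_cast_int (n : ℤ) : IsIntegral ℤ (n : ℂ) := by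
  have := isIntegral_algebraMap (R := ℤ) (A := ℂ) (x := n)
  simpa using this

lemma sM_int (h : Ctx T M η) : IsIntegral ℤ (sM M) := by
  refine IsIntegral.of_pow (n := 2) (by norm_num) ?_
  rw [sM_sq h]
  exact int_cast_int M

lemma mu_int (h : Ctx T M η) (hx : ξ ^ 2 = η) : IsIntegral ℤ (sM M * ξ) := by
  refine IsIntegral.of_pow (n := 2) (by norm_num) ?_
  rw [mul_pow, sM_sq h, hx]
  exact lam_int h

lemma mu'_int (h : Ctx T M η) (hx : ξ ^ 2 = η) : IsIntegral ℤ (sM M * ξ⁻¹) := by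
  refine IsIntegral.of_pow (n := 2) (by norm_num) ?_
  rw [mul_pow, sM_sq h, inv_pow, hx]
  exact lam'_int h

lemma xi_ne (h : Ctx T M η) (hx : ξ ^ 2 = η) : ξ ≠ 0 := by
  rintro rfl
  exact h.ne_zero (by rw [← hx]; simp)

lemma xi_norm (h : Ctx T M η) (hx : ξ ^ 2 = η) : ‖ξ‖ = 1 := by
  have h1 : ‖ξ‖ ^ 2 = 1 := by rw [← norm_pow, hx, h.norm_eq]
  exact (pow_eq_one_iff_of_nonneg (norm_nonneg _) (by norm_num)).mp h1

/-- the local factor -/
noncomputable def nu2 (M : ℤ) (ξ w : ℂ) : ℂ := 2 * sM M - w⁻¹ * (sM M * ξ) - w * (sM M * ξ⁻¹)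

lemma nu2_eq (h : Ctx T M η) (hx : ξ ^ 2 = η) {w : ℂ} (hw : ‖w‖ = 1) :
    (((Real.sqrt M) * ‖ξ - w‖ ^ 2 : ℝ) : ℂ) = nu2 M ξ w := by
  have hxc : (starRingEnd ℂ) ξ = ξ⁻¹ := by
    rw [Complex.inv_def, Complex.normSq_eq_norm_sq, xi_norm h hx]; simp
  have hwc : (starRingEnd ℂ) w = w⁻¹ := by
    rw [Complex.inv_def, Complex.normSq_eq_norm_sq, hw]; simp
  have hw0 : w ≠ 0 := by
    rintro rfl
    simp at hw
  have e : ((‖ξ - w‖ ^ 2 : ℝ) : ℂ) = 2 - ξ * w⁻¹ - ξ⁻¹ * w := by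
    rw [← Complex.normSq_eq_norm_sq, ← Complex.mul_conj, map_sub, hxc, hwc]
    have h1 : ξ * ξ⁻¹ = 1 := mul_inv_cancel₀ (xi_ne h hx)
    have h2 : w * w⁻¹ = 1 := mul_inv_cancel₀ hw0
    linear_combination h1 + h2
  rw [Complex.ofReal_mul, e]
  unfold nu2 sM
  ring

lemma nu2_int (h : Ctx T M η) (hx : ξ ^ 2 = η) {w : ℂ} (hz : IsIntegral ℤ w) (hz' : IsIntegral ℤ w⁻¹) :
    IsIntegral ℤ (nu2 M ξ w) := by
  unfold nu2
  refine IsIntegral.sub (IsIntegral.sub ?_ ?_) ?_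
  · exact (by simpa using int_cast_int 2 : IsIntegral ℤ (2 : ℂ)).mul (sM_int h)
  · exact hz'.mul (mu_int h hx)
  · exact hz.mul (mu'_int h hx)

lemma key2 (h : Ctx T M η) (hx : ξ ^ 2 = η) {k : Type*} [CommRing k] [IsDomain k] (φ : R →+* k) {w : ℂ}
    (hz0 : w ≠ 0) (hz : IsIntegral ℤ w) (hz' : IsIntegral ℤ w⁻¹) (hnu : φ (lift (nu2 M ξ w)) = 0) :
    φ (lift (sM M * ξ)) = φ (lift w) * φ (lift (sM M)) := by
  have hn := xi_ne h hx
  have e : lift w * lift (sM M * ξ) * lift (nu2 M ξ w) =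
      -(lift (sM M * ξ) - lift w * lift (sM M)) ^ 2 := by
    apply Subtype.ext
    push_cast
    rw [lift_coe hz, lift_coe (mu_int h hx), lift_coe (nu2_int h hx hz hz'), lift_coe (sM_int h)]
    unfold nu2
    field_simp
    ring
  have e2 := congrArg φ e
  rw [map_mul, hnu, mul_zero, map_neg, map_pow, map_sub, map_mul] at e2
  have e3 : (φ (lift (sM M * ξ)) - φ (lift w) * φ (lift (sM M))) ^ 2 = 0 := by
    have := e2.symm
    rwa [neg_eq_zero] at this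
  exact sub_eq_zero.mp (pow_eq_zero_iff (two_ne_zero) |>.mp e3)

lemma exists_zero2 (h : Ctx T M η) (hx : ξ ^ 2 = η) {k : Type*} [CommRing k] [IsDomain k] (φ : R →+* k)
    {p : ℕ} (h0 : φ ((p : ℕ) : R) = 0) (r : ℕ) (hr : 1 ≤ r) (O : Finset ℂ) (f : ℂ → ℂ)
    (hf : ∀ z ∈ O, (f z) ^ r = 1) (N : ℕ)
    (hN : (N : ℝ) = ∏ z ∈ O, (Real.sqrt M * ‖ξ - f z‖ ^ 2)) (hp : p ∣ N) :
    ∃ z ∈ O, φ (lift (sM M * ξ)) = φ (lift (f z)) * φ (lift (sM M)) := by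
  have hint : ∀ z ∈ O, IsIntegral ℤ (f z) ∧ IsIntegral ℤ (f z)⁻¹ ∧ f z ≠ 0 ∧ ‖f z‖ = 1 := by
    intro z hz
    have h1 := hf z hz
    refine ⟨isIntegral_root hr h1, isIntegral_root hr (by rw [inv_pow, h1, inv_one]), ?_, ?_⟩
    · intro h2
      rw [h2, zero_pow (by omega)] at h1
      exact zero_ne_one h1
    · have h2 : ‖f z‖ ^ r = 1 := by rw [← norm_pow, h1, norm_one]
      exact (pow_eq_one_iff_of_nonneg (norm_nonneg _) (by omega)).mp h2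
  have e1 : ((N : ℕ) : R) = ∏ z ∈ O, lift (nu2 M ξ (f z)) := by
    apply Subtype.ext
    have h4 : ((∏ z ∈ O, lift (nu2 M ξ (f z)) : R) : ℂ) = ∏ z ∈ O, ((lift (nu2 M ξ (f z)) : R) : ℂ) :=
      map_prod (R.val) _ _
    rw [h4]
    have h2 : ((N : ℝ) : ℂ) = ∏ z ∈ O, nu2 M ξ (f z) := by
      rw [hN, Complex.ofReal_prod]
      exact Finset.prod_congr rfl fun z hz => nu2_eq h hx (hint z hz).2.2.2
    have h3 : ∏ z ∈ O, ((lift (nu2 M ξ (f z)) : R) : ℂ) = ∏ z ∈ O, nu2 M ξ (f z) :=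
      Finset.prod_congr rfl fun z hz => lift_coe (nu2_int h hx (hint z hz).1 (hint z hz).2.1)
    rw [h3, ← h2]
    simp
  have e2 : φ ((N : ℕ) : R) = 0 := by
    obtain ⟨c, rfl⟩ := hp
    rw [Nat.cast_mul, map_mul, h0, zero_mul]
  rw [e1, map_prod] at e2
  obtain ⟨z, hz, hz0⟩ := Finset.prod_eq_zero_iff.mp e2
  exact ⟨z, hz, key2 h hx φ (hint z hz).2.2.1 (hint z hz).1 (hint z hz).2.1 hz0⟩

theorem thm : G_RK2B := by
  intro T M η ξ h hx r p hr hp hpr hpM O hO hO' NA NB hA hB ⟨hpA, hpB⟩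
  have htop : Ideal.span {((p : ℕ) : R)} ≠ ⊤ := by
    rw [Ne, Ideal.span_singleton_eq_top]
    exact not_isUnit hp
  obtain ⟨P, hP, hle⟩ := Ideal.exists_le_maximal _ htop
  have hPp : P.IsPrime := hP.isPrime
  let φ : R →+* (R ⧸ P) := Ideal.Quotient.mk P
  have hdom : IsDomain (R ⧸ P) := Ideal.Quotient.isDomain P
  have h0 : φ ((p : ℕ) : R) = 0 :=
    Ideal.Quotient.eq_zero_iff_mem.mpr (hle (Ideal.mem_span_singleton_self _))
  have h2r : 1 ≤ 2 * r := by omega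
  have hroot : ∀ z ∈ O, z ^ (2 * r) = 1 := fun z hz => by
    rw [pow_mul]; exact (hO z hz).pow_eq_one
  have hroot' : ∀ z ∈ O, (-z) ^ (2 * r) = 1 := fun z hz => by
    rw [pow_mul, neg_sq]; exact (hO z hz).pow_eq_one
  obtain ⟨z₁, hz₁, e₁⟩ := exists_zero2 h hx φ h0 (2 * r) h2r O (fun z => z) hroot NA (by simpa using hA) hpA
  obtain ⟨z₂, hz₂, e₂⟩ := exists_zero2 h hx φ h0 (2 * r) h2r O (fun z => -z) hroot' NB
    (by simpa only [sub_neg_eq_add] using hB) hpB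
  have hMne : φ ((M : ℤ) : R) ≠ 0 := map_int_ne φ hp h0 hpM
  have hsne : φ (lift (sM M)) ≠ 0 := by
    intro h1
    apply hMne
    have a : ((M : ℤ) : R) = lift (sM M) ^ 2 := by
      apply Subtype.ext
      push_cast
      rw [lift_coe (sM_int h), sM_sq h]
    rw [a, map_pow, h1, zero_pow two_ne_zero]
  have e₃ : φ (lift z₁) = φ (lift (-z₂)) := mul_right_cancel₀ hsne (e₁.symm.trans e₂)
  have hi₁ := isIntegral_root h2r (hroot z₁ hz₁)
  have hi₂ := isIntegral_root h2r (hroot' z₂ hz₂)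
  have hinv : (-z₂)⁻¹ ^ (2 * r) = 1 := by rw [inv_pow, hroot' z₂ hz₂, inv_one]
  have hi₂' : IsIntegral ℤ (-z₂)⁻¹ := isIntegral_root h2r hinv
  have hz₂0 : -z₂ ≠ 0 := by
    intro h2
    have h1 := hroot' z₂ hz₂
    rw [h2, zero_pow (by omega)] at h1
    exact zero_ne_one h1
  have e₄ : φ (lift (z₁ * (-z₂)⁻¹)) = 1 := by
    have a : lift (z₁ * (-z₂)⁻¹) = lift z₁ * lift (-z₂)⁻¹ := by
      apply Subtype.ext
      push_cast
      rw [lift_coe (hi₁.mul hi₂'), lift_coe hi₁, lift_coe hi₂']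
    have b : lift (-z₂) * lift (-z₂)⁻¹ = 1 := by
      apply Subtype.ext
      push_cast
      rw [lift_coe hi₂', lift_coe hi₂, mul_inv_cancel₀ hz₂0]
    rw [a, map_mul, e₃, ← map_mul, b, map_one]
  by_cases hw : z₁ * (-z₂)⁻¹ = 1
  · have : z₁ = -z₂ := by
      have := (mul_inv_eq_one₀ hz₂0).mp hw
      exact this
    exact hO' z₂ hz₂ (this ▸ hz₁)
  · have hwr : (z₁ * (-z₂)⁻¹) ^ (2 * r) = 1 := by rw [mul_pow, hroot z₁ hz₁, hinv, one_mul]
    have hg : ∑ i ∈ Finset.range (2 * r), (z₁ * (-z₂)⁻¹) ^ i = 0 := by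
      have := geom_sum_mul (z₁ * (-z₂)⁻¹) (2 * r)
      rw [hwr, sub_self] at this
      rcases mul_eq_zero.mp this with h1 | h1
      · exact h1
      · exact absurd (sub_eq_zero.mp h1) hw
    have hg' : ∑ i ∈ Finset.range (2 * r), (lift (z₁ * (-z₂)⁻¹)) ^ i = 0 := by
      apply Subtype.ext
      push_cast
      rw [lift_coe (hi₁.mul hi₂')]
      exact hg
    have hg2 := congrArg φ hg'
    rw [map_sum, map_zero] at hg2
    simp only [map_pow, e₄, one_pow, Finset.sum_const, Finset.card_range, nsmul_eq_mul, mul_one] at hg2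
    have h5 : φ ((((2 * r : ℕ) : ℤ) : ℤ) : R) ≠ 0 := map_int_ne φ hp h0 (by exact_mod_cast hpr)
    apply h5
    rw [Int.cast_natCast, map_natCast]
    exact hg2

end PkRK2B

end Pool.Agent.Helper59.LUC
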